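import Mathlib
import Pool.Agent.R280.DNSpace

/-!
# The Day–Nordlander type bound for `γ⁺` fails in dimension two

There are a two-dimensional real normed space `Y` and `ε ∈ [0, 2]` (namely `ε² = 2/3`) with
`γ⁺_Y(ε) < ε²`.
-/

namespace Pool.Agent.Results.MP_a1f11a_an.DayNordlanderFails

open Pool.Agent.R280.DN

/-- The norming functionals `J₁(x) = {p : ‖p‖ = 1, ⟨p, x⟩ = ‖x‖}`. -/
def J₁ {Y : Type*} [NormedAddCommGroup Y] [NormedSpace ℝ Y] (x : Y) : Set (Y →L[ℝ] ℝ) :=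
  {p | ‖p‖ = 1 ∧ p x = ‖x‖}

/-- The set of all numbers `⟨p₁ - p₂, x₁ - x₂⟩` with `x₁, x₂` in the unit sphere,
`‖x₁ - x₂‖ = ε` and `pᵢ ∈ J₁(xᵢ)`. -/
def gammaSet (Y : Type*) [NormedAddCommGroup Y] [NormedSpace ℝ Y] (ε : ℝ) : Set ℝ :=
  {r | ∃ x₁ x₂ : Y, ‖x₁‖ = 1 ∧ ‖x₂‖ = 1 ∧ ‖x₁ - x₂‖ = ε ∧
    ∃ p₁ ∈ J₁ x₁, ∃ p₂ ∈ J₁ x₂, r = (p₁ - p₂) (x₁ - x₂)}

/-- `γ⁺_Y(ε)`: the supremum of `gammaSet Y ε`. -/
noncomputable def gammaPlus (Y : Type*) [NormedAddCommGroup Y] [NormedSpace ℝ Y] (ε : ℝ) : ℝ :=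
  sSup (gammaSet Y ε)

/-- There are a finite-dimensional real normed space `Y` of dimension `2` and `ε ∈ [0, 2]`,
`ε² = 2/3`, with `γ⁺_Y(ε) < ε²` (the supremum being over a nonempty set that is bounded above). -/
theorem result : ∃ (Y : Type) (_ : NormedAddCommGroup Y) (_ : NormedSpace ℝ Y) (ε : ℝ),
    FiniteDimensional ℝ Y ∧ Module.finrank ℝ Y = 2 ∧ 0 ≤ ε ∧ ε ≤ 2 ∧ ε ^ 2 = 2 / 3 ∧
      (gammaSet Y ε).Nonempty ∧ BddAbove (gammaSet Y ε) ∧ gammaPlus Y ε < ε ^ 2 := by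
  have hs := s0_pos
  have hs2 := s0_sq
  have hsq : (2 * s0) ^ 2 = 2 / 3 := by rw [mul_pow, hs2]; norm_num
  have h0 : (0:ℝ) ≤ 2 * s0 := by positivity
  have h2 : 2 * s0 ≤ 2 := by nlinarith
  have hη := η0_pos
  refine ⟨X, inferInstance, inferInstance, 2 * s0, inferInstance, finrank_X, h0, h2, hsq, ?_, ?_,
    ?_⟩
  · obtain ⟨θ, hθ⟩ := exists_dist h0 h2
    exact pairs_nonempty X (norm_xp 0) (norm_xp θ) hθ
  · exact ⟨_, fun r hr => pairs_le r hr⟩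
  · have h3 : gammaPlus X (2 * s0) ≤ (2 * s0) ^ 2 - 2 * s0 * η0 ^ 3 := by
      obtain ⟨θ, hθ⟩ := exists_dist h0 h2
      exact csSup_le (pairs_nonempty X (norm_xp 0) (norm_xp θ) hθ) (fun r hr => pairs_le r hr)
    have h4 : 0 < 2 * s0 * η0 ^ 3 := by positivity
    linarith

end Pool.Agent.Results.MP_a1f11a_an.DayNordlanderFails
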