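import Pool.Agent.R801.GM.Full

/-!
# MP_a1f11a_an: the Day-Nordlander type bound for `γ⁺` fails in the plane
-/

set_option autoImplicit false

namespace Pool.Agent.Results.MP_a1f11a_an.GammaPlusBelow

/-- The set `J₁(x)` of norming functionals of `x`. -/
def J1 {X : Type} [NormedAddCommGroup X] [NormedSpace ℝ X] (x : X) : Set (X →L[ℝ] ℝ) :=
  {p | ‖p‖ = 1 ∧ p x = ‖x‖}

/-- The values `⟨p₁ - p₂, x₁ - x₂⟩` for unit vectors `x₁`, `x₂` at distance `ε` and norming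
functionals `p₁ ∈ J₁(x₁)`, `p₂ ∈ J₁(x₂)`. -/
def values (X : Type) [NormedAddCommGroup X] [NormedSpace ℝ X] (ε : ℝ) : Set ℝ :=
  {r | ∃ x₁ x₂ : X, ‖x₁‖ = 1 ∧ ‖x₂‖ = 1 ∧ ‖x₁ - x₂‖ = ε ∧
    ∃ p₁ ∈ J1 x₁, ∃ p₂ ∈ J1 x₂, r = (p₁ - p₂) (x₁ - x₂)}

/-- `γ⁺_X(ε)`. -/
noncomputable def gammaPlus (X : Type) [NormedAddCommGroup X] [NormedSpace ℝ X] (ε : ℝ) : ℝ :=
  sSup (values X ε)

/-- `γ⁻_X(ε)`. -/
noncomputable def gammaMinus (X : Type) [NormedAddCommGroup X] [NormedSpace ℝ X] (ε : ℝ) : ℝ :=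
  sInf (values X ε)

theorem values_nonempty (X : Type) [NormedAddCommGroup X] [NormedSpace ℝ X]
    (h2 : Module.finrank ℝ X = 2) (ε : ℝ) (h0 : 0 ≤ ε) (hε : ε ≤ 2) : (values X ε).Nonempty := by
  have hnt : Nontrivial X := Module.nontrivial_of_finrank_pos (R := ℝ) (by rw [h2]; norm_num)
  obtain ⟨x, hx⟩ : ∃ x : X, ‖x‖ = 1 := exists_norm_eq X zero_le_one
  have hrank : 1 < Module.rank ℝ X := by
    have hfin : Module.Finite ℝ X := Module.finite_of_finrank_pos (by rw [h2]; norm_num)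
    rw [← Module.finrank_eq_rank, h2]
    norm_num
  have hconn := isPreconnected_sphere hrank (0 : X) 1
  have hcont : ContinuousOn (fun y : X => ‖x - y‖) (Metric.sphere (0 : X) 1) :=
    (continuous_const.sub continuous_id).norm.continuousOn
  have hxs : x ∈ Metric.sphere (0 : X) 1 := by rw [mem_sphere_zero_iff_norm]; exact hx
  have hxs' : -x ∈ Metric.sphere (0 : X) 1 := by rw [mem_sphere_zero_iff_norm, norm_neg]; exact hx
  have hivt := hconn.intermediate_value hxs hxs' hcont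
  have hmem : ε ∈ Set.Icc ‖x - x‖ ‖x - -x‖ := by
    rw [sub_self, norm_zero, sub_neg_eq_add, ← two_smul ℝ x, norm_smul, hx]
    simp only [Real.norm_ofNat, mul_one]
    exact ⟨h0, hε⟩
  obtain ⟨y, hy, hxy⟩ := hivt hmem
  rw [mem_sphere_zero_iff_norm] at hy
  obtain ⟨p, hp, hp'⟩ := exists_dual_vector ℝ x (by rw [hx]; exact one_ne_zero)
  obtain ⟨q, hq, hq'⟩ := exists_dual_vector ℝ y (by rw [hy]; exact one_ne_zero)
  exact ⟨_, x, y, hx, hy, hxy, p, ⟨hp, by simpa using hp'⟩, q, ⟨hq, by simpa using hq'⟩, rfl⟩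

/-- There is a two-dimensional real Banach space `X` and `ε ∈ [0, 2]` such that the set of values
defining `γ⁺_X(ε)` is nonempty and all its elements are at most `ε² - 1/500`; in particular
`γ⁺_X(ε) < ε²`, and the statement of the problem fails. -/
theorem result :
    (∃ (X : Type) (_ : NormedAddCommGroup X) (_ : NormedSpace ℝ X), CompleteSpace X ∧
      Module.finrank ℝ X = 2 ∧ ∃ ε ∈ Set.Icc (0 : ℝ) 2, (values X ε).Nonempty ∧
        (∀ r ∈ values X ε, r ≤ ε ^ 2 - 1 / 500) ∧ gammaPlus X ε < ε ^ 2) ∧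
    ¬ ∀ (X : Type) (_ : NormedAddCommGroup X) (_ : NormedSpace ℝ X),
      FiniteDimensional ℝ X → 2 ≤ Module.finrank ℝ X → ∀ ε ∈ Set.Icc (0 : ℝ) 2,
        gammaMinus X ε ≤ ε ^ 2 ∧ ε ^ 2 ≤ gammaPlus X ε := by
  have hne : (values Pool.Agent.R801.GM.X (2467 / 2000)).Nonempty :=
    values_nonempty _ Pool.Agent.R801.GM.finrank_X _ (by norm_num) (by norm_num)
  have hle : ∀ r ∈ values Pool.Agent.R801.GM.X (2467 / 2000),
      r ≤ (2467 / 2000 : ℝ) ^ 2 - 1 / 500 := by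
    rintro r ⟨x, y, hx, hy, hxy, p, hp, q, hq, rfl⟩
    have hpx : p x = 1 := by rw [hp.2, hx]
    have hqy : q y = 1 := by rw [hq.2, hy]
    exact Pool.Agent.R801.GM.main_bound x y hx hy hxy p q hp.1 hq.1 hpx hqy
  have hlt : gammaPlus Pool.Agent.R801.GM.X (2467 / 2000) < (2467 / 2000 : ℝ) ^ 2 :=
    lt_of_le_of_lt (csSup_le hne hle) (by norm_num)
  have hfd : FiniteDimensional ℝ Pool.Agent.R801.GM.X :=
    Module.finite_of_finrank_pos (by rw [Pool.Agent.R801.GM.finrank_X]; norm_num)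
  refine ⟨⟨Pool.Agent.R801.GM.X, inferInstance, inferInstance,
    FiniteDimensional.complete ℝ _, Pool.Agent.R801.GM.finrank_X, 2467 / 2000,
    ⟨by norm_num, by norm_num⟩, hne, hle, hlt⟩, ?_⟩
  intro hall
  have h := (hall Pool.Agent.R801.GM.X inferInstance inferInstance hfd
    (by rw [Pool.Agent.R801.GM.finrank_X]) (2467 / 2000) ⟨by norm_num, by norm_num⟩).2
  exact absurd h (not_le.2 hlt)

end Pool.Agent.Results.MP_a1f11a_an.GammaPlusBelow
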